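import Mathlib
import Pool.Agent.TH189.Sg12
import Pool.Agent.W467.FG.F
import Pool.Agent.H106R3.VB.Jump

/-!
# The group of the linear symmetries of an indecomposable bundle of rank two on `P^n`, `n ≥ 4`

Let `E` be a rank two bundle on `P^n`, `n ≥ 4`, which does not split, and let `G` be the group of
the invertible matrices `g` with `g^* E ≅ E`.  There is a torus `T` of dimension at most one,
consisting of matrices `P t^w P'` with `w ∈ ℤ^(n+1)`, such that `T ⊆ G` and such that the quotient
of `G` by `ℂ^* T` is finite, with the following explicit bounds.  Let `E(d)` be generated by its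
sections and let `C = c₁ (E(d)) > 0`.

* For every `g` in `G` there is a positive `m ≤ (6 C)^n` with `g^m` in `ℂ^* T`.
* The quotient of `G` by `ℂ^* T` has at most `(6 C)^(2 n ((n + 1)^6 + n + 1))` elements.

In particular all symmetries are diagonalisable, and if no one-parameter group of automorphisms of
`P^n` preserves `E`, then the number of the automorphisms of `P^n` preserving `E` is bounded in terms
of `n` and `c₁ (E(d))`.

The proof uses the theorem `MP_b01859_ag.SymmetryAlgebra` of the starting files: modulo the scalars,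
at most one linear vector field lifts to `E`.

(1) Let `g` be in `G`.  The logarithm of the unipotent part of a lift of `g` is a lift of a nilpotent
vector field, so it is zero and `g` is diagonalisable; let `μ_i` be its eigenvalues.

(2) Let `w` be integral weights orthogonal to all vectors `u - u'`, where `u`, `u'` are monomials of
the same degree `≤ 3 C` on which `g` has the same eigenvalue.  The products of two generalised
eigensections of `E(d)` have a well-defined weight.  As `E` does not split, two eigensections with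
nonzero product have a third eigensection whose products with both are not zero.  With such triangles
one defines weights of the sections of `E(d)` such that the product is compatible with the weights.
So the vector field with the weights `w` has a lift on the sections of `E(d)`, and it extends to a
lift to `E` by Cramer's rule and the Plücker relations.

(3) Hence the lattice of the vectors `u - u'` has corank at most two, a determinant bounds its index
in the saturation by `(6 C)^n`, and this bounds the order of `g` modulo `ℂ^* T`.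

(4) `G` acts on the centraliser of `T` by conjugation.  All elements of the image have order at most
`(6 C)^n`, so that it is finite by Burnside's argument.  The kernel consists of elements which are
scalar on the weight spaces of `T`; modulo `ℂ^* T` such an element can be normalised to a
diagonal matrix whose entries are roots of unity of order at most `(6 C)^n`.
-/

set_option autoImplicit false

namespace Pool.Agent.Results.MP_b01859_ag.SymmetryGroup

open MvPolynomial H960VB

/-- the vectors of polynomials -/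
abbrev Vec {n : ℕ} (E : Bundle2 n) : Type := Fin E.a → MvPolynomial (Fin (n + 1)) ℂ

/-- the polynomial `x ↦ p (g x)` -/
noncomputable def subst {n : ℕ} (g : Matrix (Fin (n + 1)) (Fin (n + 1)) ℂ)
    (p : MvPolynomial (Fin (n + 1)) ℂ) : MvPolynomial (Fin (n + 1)) ℂ :=
  aeval (fun s => ∑ t, C (g s t) * X t) p

/-- `Φ` is a lift to `E` of the automorphism `x ↦ g x` of `P^n`, that is, an isomorphism
`g^* E ≅ E` in terms of sections: it maps sections of `E(d)` to sections of `E(d)`, is additive
and injective, and satisfies `Φ (p G) = (p ∘ g) Φ G` for all homogeneous polynomials `p`. -/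
structure IsLift {n : ℕ} (E : Bundle2 n) (g : Matrix (Fin (n + 1)) (Fin (n + 1)) ℂ)
    (Φ : Vec E → Vec E) : Prop where
  sec : ∀ d G, E.IsSection d G → E.IsSection d (Φ G)
  add : ∀ d G G', E.IsSection d G → E.IsSection d G' → Φ (G + G') = Φ G + Φ G'
  semi : ∀ d e p G, E.IsSection d G → HomZ p e → Φ (p • G) = subst g p • Φ G
  inj : ∀ d G, E.IsSection d G → Φ G = 0 → G = 0

/-- `g` is a linear symmetry of `E`: it is invertible and `g^* E ≅ E` -/
def IsSymmetry {n : ℕ} (E : Bundle2 n) (g : Matrix (Fin (n + 1)) (Fin (n + 1)) ℂ) : Prop :=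
  IsUnit g ∧ ∃ Φ : Vec E → Vec E, IsLift E g Φ

/-- `E(d)` is generated by its global sections -/
def Generated {n : ℕ} (E : Bundle2 n) (d : ℤ) : Prop :=
  ∀ x : Fin (n + 1) → ℂ, x ≠ 0 → ∃ G G' : Vec E, E.IsSection d G ∧ E.IsSection d G' ∧
    LinearIndependent ℂ ![evv G x, evv G' x]

/-- the element `P t^w P'` of the torus -/
noncomputable def torus {n : ℕ} (P P' : Matrix (Fin (n + 1)) (Fin (n + 1)) ℂ)
    (w : Fin (n + 1) → ℤ) (t : ℂ) : Matrix (Fin (n + 1)) (Fin (n + 1)) ℂ :=
  P * Matrix.diagonal (fun i => t ^ w i) * P'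

theorem subst_eq {n : ℕ} (g : Matrix (Fin (n + 1)) (Fin (n + 1)) ℂ)
    (p : MvPolynomial (Fin (n + 1)) ℂ) : subst g p = lsub g.mulVecLin p := by
  unfold subst lsub
  congr 2
  funext s
  refine Finset.sum_congr rfl fun t _ => ?_
  congr 2
  rw [Matrix.mulVecLin_apply, Matrix.mulVec_single_one]
  rfl

theorem isSymmetry_iff {n : ℕ} {E : Bundle2 n} {g : Matrix (Fin (n + 1)) (Fin (n + 1)) ℂ} :
    IsSymmetry E g ↔ TH189.Sg.Sym E g := by
  constructor
  · rintro ⟨hg, Φ, hΦ⟩
    refine ⟨hg, ⟨{ D := Φ, sec := ?_, add := ?_, mul := ?_, inj := ?_ }⟩⟩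
    · exact fun d G h => Pool.Agent.W615.sec_iff.2 (hΦ.sec d G (Pool.Agent.W615.sec_iff.1 h))
    · exact fun d G G' h h' =>
        hΦ.add d G G' (Pool.Agent.W615.sec_iff.1 h) (Pool.Agent.W615.sec_iff.1 h')
    · intro d e p G h hp
      rw [← subst_eq]
      exact hΦ.semi d e p G (Pool.Agent.W615.sec_iff.1 h) hp
    · intro d G h h0 i
      have h1 := hΦ.inj d G (Pool.Agent.W615.sec_iff.1 h) (funext h0)
      rw [h1]
      rfl
  · rintro ⟨hg, ⟨O⟩⟩
    refine ⟨hg, O.D, ?_, ?_, ?_, ?_⟩
    · exact fun d G h => Pool.Agent.W615.sec_iff.1 (O.sec d G (Pool.Agent.W615.sec_iff.2 h))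
    · exact fun d G G' h h' =>
        O.add d G G' (Pool.Agent.W615.sec_iff.2 h) (Pool.Agent.W615.sec_iff.2 h')
    · intro d e p G h hp
      rw [subst_eq]
      exact O.mul d e p G (Pool.Agent.W615.sec_iff.2 h) hp
    · intro d G h h0
      funext i
      exact O.inj d G (Pool.Agent.W615.sec_iff.2 h) (fun i => congrFun h0 i) i

/-- **The linear symmetries of an indecomposable bundle of rank two.** -/
theorem result {n : ℕ} (hn : 4 ≤ n) (E : Bundle2 n) (hE : ¬ E.Splits) :
    -- `c` is the first Chern class of `E`: all lines have a type `(a, b)`, and `a + b = c`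
    ∃ c : ℤ, (∀ A B : Fin (n + 1) → ℂ, LinearIndependent ℂ ![A, B] →
      (∃ a b : ℤ, E.SplitsOn A B a b) ∧ ∀ a b : ℤ, E.SplitsOn A B a b → a + b = c) ∧
    (∃ d : ℤ, Generated E d) ∧
    ∃ (P P' : Matrix (Fin (n + 1)) (Fin (n + 1)) ℂ) (w : Fin (n + 1) → ℤ), P * P' = 1 ∧
      -- the torus consists of symmetries
      (∀ t : ℂ, t ≠ 0 → IsSymmetry E (torus P P' w t)) ∧
      ∀ d : ℤ, Generated E d → 0 < c + 2 * d ∧
        -- the order of a symmetry modulo the torus and the scalars
        (∀ g : Matrix (Fin (n + 1)) (Fin (n + 1)) ℂ, IsSymmetry E g →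
          ∃ (m : ℕ) (a t : ℂ), 0 < m ∧ (m : ℤ) ≤ (6 * (c + 2 * d)) ^ n ∧ a ≠ 0 ∧ t ≠ 0 ∧
            g ^ m = a • torus P P' w t) ∧
        -- the number of the symmetries modulo the torus and the scalars
        (∀ S : Finset (Matrix (Fin (n + 1)) (Fin (n + 1)) ℂ), (∀ A ∈ S, IsSymmetry E A) →
          (∀ A ∈ S, ∀ B ∈ S, A ≠ B → ∀ z t : ℂ, t ≠ 0 → A ≠ z • (torus P P' w t * B)) →
          (S.card : ℤ) ≤ (6 * (c + 2 * d)) ^ (2 * n * ((n + 1) ^ 6 + (n + 1)))) := by
  obtain ⟨W⟩ := H938TB.exists_wedge (by omega : 1 ≤ n) (Pool.Agent.W615.triv E)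
  have hgen : ∀ d : ℤ, Generated E d ↔ TH189.Sg.GenW W d := by
    intro d
    constructor
    · intro h x hx
      obtain ⟨G, G', hG, hG', hli⟩ := h x hx
      have s1 := Pool.Agent.W615.sec_iff.2 hG
      have s2 := Pool.Agent.W615.sec_iff.2 hG'
      exact ⟨G, G', s1, s2, (W.ind x hx G G' s1.ker s2.ker).2 hli⟩
    · intro h x hx
      obtain ⟨G, G', hG, hG', hli⟩ := h x hx
      exact ⟨G, G', Pool.Agent.W615.sec_iff.1 hG, Pool.Agent.W615.sec_iff.1 hG',
        (W.ind x hx G G' hG.ker hG'.ker).1 hli⟩
  refine ⟨W.κ.1, fun A B hAB => ⟨Pool.Agent.H106R3.VB.splitsOn_exists E hAB,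
    fun a b hs => (Pool.Agent.W467.FX.kappa_of_line W hAB hs).symm⟩, ?_, ?_⟩
  · obtain ⟨d, hd⟩ := Pool.Agent.W615.exists_deg W
    exact ⟨d, (hgen d).2 hd⟩
  obtain ⟨P, P', w, hP, hstr, hS⟩ := TH189.Sg.exists_str hn hE
  refine ⟨P, P', w, hP, fun t ht => isSymmetry_iff.2 (TH189.Sg.torus_sym hP hS t ht), ?_⟩
  intro d hd
  have hd' := (hgen d).1 hd
  have hpos := TH189.Sg.deg_pos hE W hd'
  have hcast : ((d + d + W.κ.1).toNat : ℤ) = W.κ.1 + 2 * d := by omega
  refine ⟨by omega, fun g hg => ?_, fun S hS1 hS2 => ?_⟩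
  · obtain ⟨hg, ⟨O⟩⟩ := isSymmetry_iff.1 hg
    obtain ⟨m, a, t, hm, hmb, ha, ht, h⟩ := TH189.Sg.bound_one (by omega) hE W hd' hP hstr hg O
    refine ⟨m, a, t, hm, ?_, ha, ht, h⟩
    have h1 : (m : ℤ) ≤ (((6 * (d + d + W.κ.1).toNat) ^ n : ℕ) : ℤ) := by exact_mod_cast hmb
    rw [Nat.cast_pow, Nat.cast_mul, hcast] at h1
    exact h1
  · have h1 := TH189.Sg.count_main (by omega) hE W hd' hP hstr hS S
      (fun A hA => isSymmetry_iff.1 (hS1 A hA)) hS2
    have h2 : (S.card : ℤ) ≤
        (((6 * (d + d + W.κ.1).toNat) ^ (2 * n * ((n + 1) ^ 6 + (n + 1))) : ℕ) : ℤ) := by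
      exact_mod_cast h1
    rw [Nat.cast_pow, Nat.cast_mul, hcast] at h2
    exact h2

end Pool.Agent.Results.MP_b01859_ag.SymmetryGroup
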